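import Pool.Agent.H.MP_763dcb_co.Data

namespace Pool.Agent.H.MP_763dcb_co

lemma bit_eq (x i : ℕ) : bit x i = if x.testBit i then 1 else 0 := by
  have h := Nat.toNat_testBit x i
  have : bit x i = x / 2 ^ i % 2 := by
    show (x >>> i) % 2 = _
    rw [Nat.shiftRight_eq_div_pow]
  rw [this, ← h]
  cases x.testBit i <;> simp

lemma beq_bit (x i : ℕ) : Nat.beq (bit x i) 1 = x.testBit i := by
  rw [bit_eq]; cases x.testBit i <;> rfl

def OptOK (o : Opt) : Prop :=
  o.m = mask o.w ∧ o.s = 2 ^ o.w ∧
    ∀ x < 50, o.m.testBit x = true → x = o.w ∨ x = o.a ∨ x = o.b ∨ x = o.c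

def EntOK (e : Ent) : Prop :=
  e.v < 50 ∧ OptOK e.o1 ∧ OptOK e.o2 ∧ OptOK e.o3 ∧ OptOK e.o4 ∧
    ∀ w < 50, (mask w).testBit e.v = true → w = e.o1.w ∨ w = e.o2.w ∨ w = e.o3.w ∨ w = e.o4.w

instance (o : Opt) : Decidable (OptOK o) := by unfold OptOK; infer_instance
instance (e : Ent) : Decidable (EntOK e) := by unfold EntOK; infer_instance

lemma ents_ok : ∀ e ∈ ents, EntOK e := by decide +kernel

def und (dom : ℕ) : Finset ℕ := (Finset.range 50).filter (fun x => dom.testBit x = false)

lemma mask_card : ∀ w < 50, ((Finset.range 50).filter (fun x => (mask w).testBit x = true)).card ≤ 4 := by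
  decide +kernel

/-- the invariant -/
def Inv (dom ex sl : ℕ) (R : Finset ℕ) : Prop :=
  (∀ r ∈ R, r < 50 ∧ ex.testBit r = false) ∧
  (∀ x < 50, dom.testBit x = false → ∃ r ∈ R, (mask r).testBit x = true) ∧
  4 * R.card ≤ sl + (und dom).card

lemma und_le {dom : ℕ} {R : Finset ℕ} (h1 : ∀ r ∈ R, r < 50)
    (h2 : ∀ x < 50, dom.testBit x = false → ∃ r ∈ R, (mask r).testBit x = true) :
    (und dom).card ≤ 4 * R.card := by
  have hsub : und dom ⊆ R.biUnion
      (fun r => (Finset.range 50).filter (fun x => (mask r).testBit x = true)) := by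
    intro x hx
    simp only [und, Finset.mem_filter, Finset.mem_range] at hx
    obtain ⟨r, hr, h⟩ := h2 x hx.1 hx.2
    simp only [Finset.mem_biUnion, Finset.mem_filter, Finset.mem_range]
    exact ⟨r, hr, hx.1, h⟩
  refine (Finset.card_le_card hsub).trans (Finset.card_biUnion_le.trans ?_)
  calc _ ≤ ∑ _r ∈ R, 4 := Finset.sum_le_sum (fun r hr => mask_card r (h1 r hr))
    _ = 4 * R.card := by simp [mul_comm]

lemma und_step (dom : ℕ) {o : Opt} (ho : OptOK o) :
    (und dom).card + cov dom o ≤ (und (Nat.lor dom o.m)).card + 4 := by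
  have hsub : und dom ⊆ und (Nat.lor dom o.m) ∪
      (({o.w, o.a, o.b, o.c} : Finset ℕ).filter (fun x => dom.testBit x = false)) := by
    intro x hx
    simp only [und, Finset.mem_filter, Finset.mem_range] at hx
    simp only [und, Finset.mem_union, Finset.mem_filter, Finset.mem_range, Finset.mem_insert,
      Finset.mem_singleton]
    by_cases hm : o.m.testBit x = true
    · exact Or.inr ⟨ho.2.2 x hx.1 hm, hx.2⟩
    · left
      refine ⟨hx.1, ?_⟩
      show (dom ||| o.m).testBit x = false
      rw [Nat.testBit_or, hx.2]; simpa using hm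
  have h1 := (Finset.card_le_card hsub).trans (Finset.card_union_le _ _)
  have h2 : (({o.w, o.a, o.b, o.c} : Finset ℕ).filter (fun x => dom.testBit x = false)).card
      + cov dom o ≤ 4 := by
    have hc : cov dom o = bit dom o.w + bit dom o.a + (bit dom o.b + bit dom o.c) := rfl
    have key : ∀ (y : ℕ) (s : Finset ℕ), ((insert y s).filter (fun x => dom.testBit x = false)).card
        + bit dom y ≤ (s.filter (fun x => dom.testBit x = false)).card + 1 := by
      intro y s
      rw [Finset.filter_insert, bit_eq]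
      cases hy : dom.testBit y
      · simpa using Finset.card_insert_le _ _
      · simp
    have k1 := key o.w {o.a, o.b, o.c}
    have k2 := key o.a {o.b, o.c}
    have k3 := key o.b {o.c}
    have k4 := key o.c ∅
    simp only [insert_empty_eq, Finset.filter_empty, Finset.card_empty] at k4
    omega
  omega

lemma step_sound {ih : ℕ → ℕ → ℕ → Bool}
    (hih : ∀ dom ex sl, ih dom ex sl = true → ∀ R, ¬ Inv dom ex sl R)
    {dom ex sl : ℕ} {o : Opt} (ho : OptOK o) (h : step ih dom ex sl o = true)
    {R : Finset ℕ} (hR : Inv dom ex sl R) : o.w ∉ R := by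
  intro hw
  obtain ⟨h1, h2, h3⟩ := hR
  unfold step at h
  rw [beq_bit, (h1 _ hw).2] at h
  have hcard := Finset.card_erase_add_one hw
  have g2 : ∀ x < 50, (Nat.lor dom o.m).testBit x = false →
      ∃ r ∈ R.erase o.w, (mask r).testBit x = true := by
    intro x hx hb
    have hb' : (dom ||| o.m).testBit x = false := hb
    rw [Nat.testBit_or, Bool.or_eq_false_iff] at hb'
    obtain ⟨r, hr, hm⟩ := h2 x hx hb'.1
    refine ⟨r, Finset.mem_erase.mpr ⟨?_, hr⟩, hm⟩
    rintro rfl
    rw [← ho.1, hb'.2] at hm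
    exact absurd hm (by simp)
  have g1 : ∀ r ∈ R.erase o.w, r < 50 ∧ ex.testBit r = false :=
    fun r hr => h1 r (Finset.mem_of_mem_erase hr)
  have hu := und_le (fun r hr => (g1 r hr).1) g2
  have hs := und_step dom ho
  cases hb : Nat.blt sl (cov dom o)
  · rw [hb] at h
    have hle : cov dom o ≤ sl := by
      by_contra hc
      have := Nat.blt_eq.mpr (not_le.mp hc)
      rw [hb] at this; exact absurd this (by simp)
    refine hih _ _ _ h (R.erase o.w) ⟨g1, g2, ?_⟩
    show _ ≤ (sl - cov dom o) + _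
    omega
  · have := Nat.blt_eq.mp hb
    omega

lemma inv_ex {dom ex sl : ℕ} {R : Finset ℕ} (hR : Inv dom ex sl R) {o : Opt} (ho : OptOK o)
    (hw : o.w ∉ R) : Inv dom (Nat.lor ex o.s) sl R := by
  refine ⟨fun r hr => ⟨(hR.1 r hr).1, ?_⟩, hR.2⟩
  show (ex ||| o.s).testBit r = false
  rw [Nat.testBit_or, (hR.1 r hr).2, ho.2.1, Nat.testBit_two_pow]
  have : o.w ≠ r := fun h => hw (h ▸ hr)
  simp [this]

lemma go_sound (L : List Ent) (hL : ∀ e ∈ L, EntOK e) :
    ∀ dom ex sl, go L dom ex sl = true → ∀ R, ¬ Inv dom ex sl R := by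
  induction L with
  | nil => intro dom ex sl h; exact absurd h (by simp [go])
  | cons e L ih =>
    have ih' := ih (fun e he => hL e (List.mem_cons_of_mem _ he))
    obtain ⟨hv, o1, o2, o3, o4, hc⟩ := hL e List.mem_cons_self
    intro dom ex sl h R hR
    change body e (go L) dom ex sl = true at h
    unfold body at h
    rw [beq_bit] at h
    cases hd : dom.testBit e.v
    · rw [hd, cond_false] at h
      cases s1 : step (go L) dom ex sl e.o1
      · rw [s1] at h; exact absurd h (by simp)
      rw [s1, cond_true] at h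
      cases s2 : step (go L) dom (Nat.lor ex e.o1.s) sl e.o2
      · rw [s2] at h; exact absurd h (by simp)
      rw [s2, cond_true] at h
      cases s3 : step (go L) dom (Nat.lor (Nat.lor ex e.o1.s) e.o2.s) sl e.o3
      · rw [s3] at h; exact absurd h (by simp)
      rw [s3, cond_true] at h
      have n1 := step_sound ih' o1 s1 hR
      have i1 := inv_ex hR o1 n1
      have n2 := step_sound ih' o2 s2 i1
      have i2 := inv_ex i1 o2 n2
      have n3 := step_sound ih' o3 s3 i2
      have i3 := inv_ex i2 o3 n3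
      have n4 := step_sound ih' o4 h i3
      obtain ⟨r, hr, hm⟩ := hR.2.1 e.v hv hd
      rcases hc r (hR.1 r hr).1 hm with rfl | rfl | rfl | rfl
      · exact n1 hr
      · exact n2 hr
      · exact n3 hr
      · exact n4 hr
    · rw [hd, cond_true] at h
      exact ih' _ _ _ h R hR

theorem dom_ge (R : Finset ℕ) (h1 : ∀ r ∈ R, r < 50)
    (h2 : ∀ x < 50, ∃ r ∈ R, (mask r).testBit x = true) : 16 ≤ R.card := by
  by_contra hc
  refine go_sound ents ents_ok 0 0 10 go_ents R ⟨fun r hr => ⟨h1 r hr, by simp⟩,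
    fun x hx _ => h2 x hx, ?_⟩
  have : (und 0).card = 50 := by simp [und]
  omega

end Pool.Agent.H.MP_763dcb_co
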